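import Mathlib

set_option autoImplicit false

open MeasureTheory Set Filter Topology

namespace Pool.Agent.W779.Morrey

/-- the plane -/
abbrev V := Fin 2 → ℝ

/-- real `2 × 2` matrices (with the supremum norm) -/
abbrev E := Fin 2 → Fin 2 → ℝ

/-- The integral over the unit square of the divergence of a field with the same values on opposite
sides vanishes. -/
theorem integral_div_periodic (f : Fin 2 → V → ℝ) (f' : Fin 2 → V → V →L[ℝ] ℝ)
    (hd : ∀ i x, HasFDerivAt (f i) (f' i x) x) (hc : ∀ i, Continuous (f' i))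
    (hp : ∀ i x, x i = 0 → f i (x + Pi.single i 1) = f i x) :
    ∫ x in Icc (0 : V) 1, ∑ i, f' i x (Pi.single i 1) = 0 := by
  have h := integral_divergence_of_hasFDerivAt_off_countable' (n := 1) (0 : V) (1 : V) zero_le_one
    f f' ∅ countable_empty
    (fun i => (continuous_iff_continuousAt.2 fun x => (hd i x).continuousAt).continuousOn)
    (fun x _ i => hd i x) (by
      refine Continuous.integrableOn_Icc ?_
      refine continuous_finsetSum _ fun i _ => ?_
      exact (hc i).clm_apply continuous_const)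
  rw [h]
  refine Finset.sum_eq_zero fun i _ => ?_
  rw [sub_eq_zero]
  refine integral_congr_ae (Eventually.of_forall fun x => ?_)
  have e : (Fin.insertNth i ((1 : V) i) x : Fin 2 → ℝ)
      = (Fin.insertNth i ((0 : V) i) x : Fin 2 → ℝ) + Pi.single i 1 := by
    ext j
    rcases Fin.eq_self_or_eq_succAbove i j with rfl | ⟨m, rfl⟩
    · simp
    · simp [Fin.succAbove_ne]
  change f i (Fin.insertNth i ((1 : V) i) x) = f i (Fin.insertNth i ((0 : V) i) x)
  rw [e, hp]
  simp

section dissipation

variable {W : E → ℝ} {θ : E → E →L[ℝ] ℝ}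

/-- The pointwise inequality for the second derivatives of `W` and the exact two-form `dθ`. -/
def HeatCert (W : E → ℝ) (θ : E → E →L[ℝ] ℝ) : Prop :=
  ∀ F G₀ G₁ : E, (∀ r, G₀ r 1 = G₁ r 0) →
    0 ≤ fderiv ℝ (fderiv ℝ W) F G₀ G₀ + fderiv ℝ (fderiv ℝ W) F G₁ G₁
      + (fderiv ℝ θ F G₀ G₁ - fderiv ℝ θ F G₁ G₀)

/-- the derivative with the given partial derivatives -/
noncomputable def mk' {X : Type*} [NormedAddCommGroup X] [NormedSpace ℝ X] (G : Fin 2 → X) :
    V →L[ℝ] X :=
  ∑ j, (ContinuousLinearMap.proj (R := ℝ) (φ := fun _ : Fin 2 => ℝ) j).smulRight (G j)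

theorem mk'_single {X : Type*} [NormedAddCommGroup X] [NormedSpace ℝ X] (G : Fin 2 → X)
    (j : Fin 2) : mk' G (Pi.single j 1) = G j := by
  fin_cases j <;> simp [mk', Fin.sum_univ_two]

theorem dissipation (hW : ContDiff ℝ 2 W) (hθ : ContDiff ℝ 1 θ) (F : V → E) (G : Fin 2 → V → E)
    (G2 : Fin 2 → Fin 2 → V → E)
    (hF : ∀ x, HasFDerivAt F (mk' fun j => G j x) x)
    (hG : ∀ j x, HasFDerivAt (G j) (mk' fun l => G2 j l x) x)
    (hG2 : ∀ j l, Continuous (G2 j l)) (hsymm : ∀ x, G2 0 1 x = G2 1 0 x)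
    (hpF : ∀ i x, F (x + Pi.single i 1) = F x)
    (hpG : ∀ j i x, G j (x + Pi.single i 1) = G j x) :
    ∫ x in Icc (0 : V) 1,
      ((fderiv ℝ (fderiv ℝ W) (F x) (G 0 x) (G 0 x) + fderiv ℝ (fderiv ℝ W) (F x) (G 1 x) (G 1 x)
      + (fderiv ℝ θ (F x) (G 0 x) (G 1 x) - fderiv ℝ θ (F x) (G 1 x) (G 0 x)))
      + fderiv ℝ W (F x) (G2 0 0 x + G2 1 1 x)) = 0 := by
  have hFc : Continuous F := continuous_iff_continuousAt.2 fun x => (hF x).continuousAt
  have hGc : ∀ j, Continuous (G j) := fun j =>
    continuous_iff_continuousAt.2 fun x => (hG j x).continuousAt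
  have hP1 : ContDiff ℝ 1 (fderiv ℝ W) := hW.fderiv_right (by norm_num)
  have hPd : ∀ y, HasFDerivAt (fderiv ℝ W) (fderiv ℝ (fderiv ℝ W) y) y := fun y =>
    (hP1.differentiable (by norm_num) y).hasFDerivAt
  have hθd : ∀ y, HasFDerivAt θ (fderiv ℝ θ y) y := fun y =>
    (hθ.differentiable (by norm_num) y).hasFDerivAt
  have hHc : Continuous (fderiv ℝ (fderiv ℝ W)) := hP1.continuous_fderiv (by norm_num)
  have hΘc : Continuous (fderiv ℝ θ) := hθ.continuous_fderiv (by norm_num)
  set P := fderiv ℝ W with hPdef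
  set H := fderiv ℝ P with hHdef
  set Θ := fderiv ℝ θ with hΘdef
  have d1 : ∀ j x, HasFDerivAt (fun x => P (F x) (G j x))
      ((P (F x)).comp (mk' fun l => G2 j l x) + ((H (F x)).comp (mk' fun j => G j x)).flip (G j x))
      x := fun j x => ((hPd (F x)).comp x (hF x)).clm_apply (hG j x)
  have d2 : ∀ j x, HasFDerivAt (fun x => θ (F x) (G j x))
      ((θ (F x)).comp (mk' fun l => G2 j l x) + ((Θ (F x)).comp (mk' fun j => G j x)).flip (G j x))
      x := fun j x => ((hθd (F x)).comp x (hF x)).clm_apply (hG j x)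
  have hmkc : ∀ (K : Fin 2 → V → E), (∀ j, Continuous (K j)) →
      Continuous (fun x => mk' fun j => K j x) := by
    intro K hK
    unfold mk'
    refine continuous_finsetSum _ fun j _ => ?_
    exact (ContinuousLinearMap.smulRightL ℝ V E
      (ContinuousLinearMap.proj (R := ℝ) (φ := fun _ : Fin 2 => ℝ) j)).continuous.comp (hK j)
  have c1 : ∀ j, Continuous (fun x => (P (F x)).comp (mk' fun l => G2 j l x)
      + ((H (F x)).comp (mk' fun j => G j x)).flip (G j x)) := by
    intro j
    have a1 := hmkc (G2 j) (hG2 j)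
    have a2 := hmkc G hGc
    have a3 : Continuous (fun x => P (F x)) := hP1.continuous.comp hFc
    have a4 : Continuous (fun x => H (F x)) := hHc.comp hFc
    refine (a3.clm_comp a1).add ?_
    have a5 := a4.clm_comp a2
    have a6 : Continuous (fun x => ((H (F x)).comp (mk' fun j => G j x)).flip) :=
      (ContinuousLinearMap.flipₗᵢ ℝ V E ℝ).continuous.comp a5
    exact a6.clm_apply (hGc j)
  have c2 : ∀ j, Continuous (fun x => (θ (F x)).comp (mk' fun l => G2 j l x)
      + ((Θ (F x)).comp (mk' fun j => G j x)).flip (G j x)) := by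
    intro j
    have a1 := hmkc (G2 j) (hG2 j)
    have a2 := hmkc G hGc
    have a3 : Continuous (fun x => θ (F x)) := hθ.continuous.comp hFc
    have a4 : Continuous (fun x => Θ (F x)) := hΘc.comp hFc
    refine (a3.clm_comp a1).add ?_
    have a5 := a4.clm_comp a2
    have a6 : Continuous (fun x => ((Θ (F x)).comp (mk' fun j => G j x)).flip) :=
      (ContinuousLinearMap.flipₗᵢ ℝ V E ℝ).continuous.comp a5
    exact a6.clm_apply (hGc j)
  have key := integral_div_periodic
    (![fun x => P (F x) (G 0 x) + θ (F x) (G 1 x), fun x => P (F x) (G 1 x) - θ (F x) (G 0 x)])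
    (![fun x => ((P (F x)).comp (mk' fun l => G2 0 l x)
        + ((H (F x)).comp (mk' fun j => G j x)).flip (G 0 x))
        + ((θ (F x)).comp (mk' fun l => G2 1 l x)
        + ((Θ (F x)).comp (mk' fun j => G j x)).flip (G 1 x)),
      fun x => ((P (F x)).comp (mk' fun l => G2 1 l x)
        + ((H (F x)).comp (mk' fun j => G j x)).flip (G 1 x))
        - ((θ (F x)).comp (mk' fun l => G2 0 l x)
        + ((Θ (F x)).comp (mk' fun j => G j x)).flip (G 0 x))])
    (by
      intro i x
      fin_cases i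
      · exact (d1 0 x).add (d2 1 x)
      · exact (d1 1 x).sub (d2 0 x))
    (by
      intro i
      fin_cases i
      · exact (c1 0).add (c2 1)
      · exact (c1 1).sub (c2 0))
    (by
      intro i x _
      fin_cases i
      · simp [hpF, hpG]
      · simp [hpF, hpG])
  rw [← key]
  refine integral_congr_ae (Eventually.of_forall fun x => ?_)
  simp only [Fin.sum_univ_two, Matrix.cons_val_zero, Matrix.cons_val_one,
    _root_.add_apply, _root_.sub_apply, ContinuousLinearMap.comp_apply,
    ContinuousLinearMap.flip_apply, mk'_single, hsymm x, map_add]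
  ring

end dissipation

end Pool.Agent.W779.Morrey
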