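import Pool.Agent.H73.G.R8.W779.Morrey.Mollify
import Pool.Agent.H73.G.R8.Helper188.Morrey.Lip

set_option autoImplicit false

open MeasureTheory Set Filter Topology

namespace Pool.Agent.W779.Morrey

theorem gr_eq_grad (ϑ : V → V) (x : V) :
    gr ϑ x = (Pool.Agent.Helper188.Morrey.grad ϑ x : Matrix (Fin 2) (Fin 2) ℝ) := by
  funext r l
  rw [Pool.Agent.Helper188.Morrey.grad_apply]
  rfl

theorem qc_of_trig {W : E → ℝ} (hW : Continuous W) (h : QCtrig W) (F₀ : E) {Ω : Set V}
    (hΩ : IsOpen Ω) (hb : Bornology.IsBounded Ω) {ϑ : V → V} {K : NNReal}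
    (hK : LipschitzWith K ϑ) (h0 : ∀ x, x ∉ Ω → ϑ x = 0) :
    W F₀ * (volume Ω).toReal ≤ ∫ x in Ω, W (F₀ + gr ϑ x) := by
  obtain ⟨R, hR0, hR⟩ : ∃ R : ℝ, 0 < R ∧ ∀ x ∈ Ω, ∀ i, |x i| < R := by
    obtain ⟨R, hR⟩ := hb.subset_ball (0 : V)
    refine ⟨max R 1, by positivity, fun x hx i => ?_⟩
    have h1 := hR hx
    rw [Metric.mem_ball, dist_zero_right] at h1
    exact lt_of_le_of_lt (norm_le_pi_norm x i) (h1.trans_le (le_max_left _ _))
  set L : ℝ := 4 * R with hL
  have hL0 : 0 < L := by positivity
  set c : V := fun _ => 1 / 2 with hc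
  set v : V → V := fun y => L⁻¹ • ϑ (L • (y - c)) with hv
  have hvK : LipschitzWith K v := by
    refine LipschitzWith.of_dist_le_mul fun y z => ?_
    have h1 := hK.dist_le_mul (L • (y - c)) (L • (z - c))
    rw [dist_eq_norm, dist_eq_norm] at h1 ⊢
    rw [hv]
    simp only
    rw [← smul_sub, norm_smul, norm_inv, Real.norm_eq_abs, abs_of_pos hL0]
    rw [← smul_sub, norm_smul, Real.norm_eq_abs, abs_of_pos hL0, sub_sub_sub_cancel_right] at h1
    calc L⁻¹ * ‖ϑ (L • (y - c)) - ϑ (L • (z - c))‖ ≤ L⁻¹ * (K * (L * ‖y - z‖)) :=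
          mul_le_mul_of_nonneg_left h1 (inv_pos.2 hL0).le
      _ = K * ‖y - z‖ := by field_simp
  have hv0 : ∀ y, (∃ i, y i ≤ 1 / 4 ∨ 3 / 4 ≤ y i) → v y = 0 := by
    rintro y ⟨i, hi⟩
    rw [hv]
    simp only
    rw [h0, smul_zero]
    intro hmem
    have h1 := hR _ hmem i
    rw [Pi.smul_apply, Pi.sub_apply, smul_eq_mul, abs_lt, hc] at h1
    simp only at h1
    rcases hi with hi | hi
    · nlinarith [h1.1]
    · nlinarith [h1.2]
  have hgr : ∀ y, gr v y = gr ϑ (L • (y - c)) := by
    intro y
    have hA : HasFDerivAt (fun y : V => L • (y - c)) (L • ContinuousLinearMap.id ℝ V) y :=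
      ((hasFDerivAt_id y).sub_const c).const_smul L
    have hf : fderiv ℝ v y = fderiv ℝ ϑ (L • (y - c)) := by
      by_cases hd : DifferentiableAt ℝ ϑ (L • (y - c))
      · have h1 : HasFDerivAt v (L⁻¹ • ((fderiv ℝ ϑ (L • (y - c))).comp
            (L • ContinuousLinearMap.id ℝ V))) y :=
          (hd.hasFDerivAt.comp y hA).const_smul L⁻¹
        rw [h1.fderiv]
        ext w i
        simp [hL0.ne']
      · have hd2 : ¬ DifferentiableAt ℝ v y := by
          intro hcon
          apply hd
          have e : ϑ = fun x => L • v (L⁻¹ • x + c) := by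
            funext x
            rw [hv]
            simp only
            rw [add_sub_cancel_right, smul_smul, mul_inv_cancel₀ hL0.ne', one_smul, smul_smul,
              mul_inv_cancel₀ hL0.ne', one_smul]
          rw [e]
          have e2 : L⁻¹ • (L • (y - c)) + c = y := by
            rw [smul_smul, inv_mul_cancel₀ hL0.ne', one_smul, sub_add_cancel]
          have h2 : DifferentiableAt ℝ v (L⁻¹ • (L • (y - c)) + c) := by rw [e2]; exact hcon
          have h3 : DifferentiableAt ℝ (fun x : V => L⁻¹ • x + c) (L • (y - c)) := by fun_prop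
          exact (h2.comp (L • (y - c)) h3).const_smul L
        rw [fderiv_zero_of_not_differentiableAt hd, fderiv_zero_of_not_differentiableAt hd2]
    funext r l
    unfold gr
    rw [hf]
  -- the reduced inequality on the unit square
  have hmain := lip_case hW h F₀ hvK hv0
  set g : V → ℝ := fun x => W (F₀ + gr ϑ x) - W F₀ with hg
  have hgv : ∀ y, W (F₀ + gr v y) - W F₀ = g (L • (y - c)) := by
    intro y
    rw [hgr]
  have hoff : ∀ y, y ∉ Icc (0 : V) 1 → g (L • (y - c)) = 0 := by
    intro y hy
    rw [← hgv]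
    have hloc : v =ᶠ[𝓝 y] fun _ => 0 := by
      have hopen : IsOpen (Icc (0 : V) 1)ᶜ := isClosed_Icc.isOpen_compl
      filter_upwards [hopen.mem_nhds hy] with z hz
      refine hv0 z ?_
      by_contra hcon
      push Not at hcon
      exact hz ⟨fun i => by have := (hcon i).1; simp only [Pi.zero_apply]; linarith,
        fun i => by have := (hcon i).2; simp only [Pi.one_apply]; linarith⟩
    have h1 : gr v y = 0 := by
      funext r l
      unfold gr
      rw [hloc.fderiv_eq]
      simp
    rw [h1, add_zero, sub_self]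
  have hmeasE : Measurable (fun x => gr ϑ x) :=
    measurable_pi_lambda _ fun r => measurable_pi_lambda _ fun l => measurable_gr ϑ r l
  have hmg : Measurable (fun x => W (F₀ + gr ϑ x)) :=
    hW.measurable.comp (measurable_const.add hmeasE)
  obtain ⟨C, hC⟩ := W_bound hW F₀ (K : ℝ)
  have hintΩ : IntegrableOn (fun x => W (F₀ + gr ϑ x)) Ω :=
    Measure.integrableOn_of_bounded (M := C) hb.measure_lt_top.ne hmg.aestronglyMeasurable
      (Eventually.of_forall fun x => hC _ fun r l => gr_bound hK x r l)
  have hmgv : Measurable (fun y => W (F₀ + gr v y)) := by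
    have : Measurable (fun x => gr v x) :=
      measurable_pi_lambda _ fun r => measurable_pi_lambda _ fun l => measurable_gr v r l
    exact hW.measurable.comp (measurable_const.add this)
  have hintQ : IntegrableOn (fun y => W (F₀ + gr v y)) (Icc (0 : V) 1) :=
    Measure.integrableOn_of_bounded (M := C) isCompact_Icc.measure_lt_top.ne
      hmgv.aestronglyMeasurable
      (Eventually.of_forall fun x => hC _ fun r l => gr_bound hvK x r l)
  have h1 : 0 ≤ ∫ y, g (L • (y - c)) := by
    rw [← setIntegral_eq_integral_of_forall_compl_eq_zero (s := Icc (0 : V) 1)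
      (fun y hy => hoff y hy)]
    have e : ∫ y in Icc (0 : V) 1, g (L • (y - c))
        = (∫ y in Icc (0 : V) 1, W (F₀ + gr v y)) - W F₀ := by
      rw [← integral_congr_ae (Eventually.of_forall fun y => hgv y), integral_sub hintQ]
      · simp [Measure.real]
      · exact continuous_const.integrableOn_Icc
    rw [e]
    linarith
  have h2 : ∫ y, g (L • (y - c)) = |(L ^ Module.finrank ℝ V)⁻¹| • ∫ x, g x := by
    rw [integral_sub_right_eq_self (fun y => g (L • y)) c, Measure.integral_comp_smul]
  have h3 : 0 ≤ ∫ x, g x := by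
    rw [h2, smul_eq_mul] at h1
    have hpos : 0 < |(L ^ Module.finrank ℝ V)⁻¹| := by positivity
    by_contra hneg
    push Not at hneg
    have := mul_neg_of_pos_of_neg hpos hneg
    linarith
  have h4 : ∫ x in Ω, g x = ∫ x, g x := by
    refine setIntegral_eq_integral_of_ae_compl_eq_zero ?_
    have := Pool.Agent.Helper188.Morrey.grad_off hK hΩ h0
    rw [ae_restrict_iff' hΩ.measurableSet.compl] at this
    filter_upwards [this] with x hx hx'
    have hx2 := hx hx'
    rw [hg]
    simp only
    have hx3 : gr ϑ x = 0 := by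
      rw [gr_eq_grad, hx2]
      rfl
    rw [hx3, add_zero, sub_self]
  rw [← h4] at h3
  have h5 : ∫ x in Ω, g x = (∫ x in Ω, W (F₀ + gr ϑ x)) - W F₀ * (volume Ω).toReal := by
    rw [hg, integral_sub hintΩ]
    · simp [Measure.real, mul_comm]
    · exact integrableOn_const hb.measure_lt_top.ne
  rw [h5] at h3
  linarith

end Pool.Agent.W779.Morrey
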