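import Pool.Agent.H73.G.R8.W779.Morrey.Quartic
import Pool.Agent.H73.G.R8.W779.Morrey.Scale

set_option autoImplicit false

open MeasureTheory Set Filter Topology Matrix

namespace Pool.Agent.W779.Morrey

theorem QCtrig_of_cert {W : E → ℝ} {θ : E → E →L[ℝ] ℝ} (hW : ContDiff ℝ 2 W)
    (hθ : ContDiff ℝ 1 θ) (hcert : HeatCert W θ) : QCtrig W :=
  fun _ _ F₀ k c d => flow_mono hW hθ hcert F₀ k c d

theorem QCtrig.add {W₁ W₂ : E → ℝ} (h1 : QCtrig W₁) (h2 : QCtrig W₂) (c1 : Continuous W₁)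
    (c2 : Continuous W₂) : QCtrig (fun F => W₁ F + W₂ F) := by
  intro ι _ F₀ k c d
  have hF : Continuous (fun x => F₀ + Fam k (grk k c) (grk k d) 1 x) :=
    continuous_const.add (continuous_Fam k (grk k c) (grk k d) 1)
  have e := integral_add (μ := volume.restrict (Icc (0 : V) 1)) (c1.comp hF).integrableOn_Icc
    (c2.comp hF).integrableOn_Icc
  exact (add_le_add (h1 ι F₀ k c d) (h2 ι F₀ k c d)).trans_eq e.symm

theorem QCtrig.const_mul {W : E → ℝ} (h : QCtrig W) {a : ℝ} (ha : 0 ≤ a) :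
    QCtrig (fun F => a * W F) := by
  intro ι _ F₀ k c d
  rw [integral_const_mul]
  exact mul_le_mul_of_nonneg_left (h ι F₀ k c d) ha

theorem QCtrig_const (a : ℝ) : QCtrig (fun _ => a) := by
  intro ι _ F₀ k c d
  simp [Measure.real]

/-- quadratic functions of the two lengths -/
noncomputable def W2 (x y : ℝ) (F : E) : ℝ := x * pP F + y * pQ F

theorem contDiff_W2 (x y : ℝ) : ContDiff ℝ 2 (W2 x y) := by
  have h1 : ContDiff ℝ 2 pP := contDiff_pP (n := 2)
  have h2 : ContDiff ℝ 2 pQ := contDiff_pQ (n := 2)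
  exact (contDiff_const.mul h1).add (contDiff_const.mul h2)

theorem hess_W2 (x y : ℝ) (F G : E) :
    fderiv ℝ (fderiv ℝ (W2 x y)) F G G = 2 * W2 x y G := by
  refine hess_of_poly (contDiff_W2 x y) F G (W2 x y F)
    (x * (2 * (a1 F * a1 G + a2 F * a2 G)) + y * (2 * (b1 F * b1 G + b2 F * b2 G))) _ 0 0
    fun t => ?_
  simp only [W2, pP, pQ, map_add, map_smul, smul_eq_mul]
  ring

/-- the one-form of the determinant -/
noncomputable def θ2 (s : ℝ) (F : E) : E →L[ℝ] ℝ :=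
  (-(2 * s)) • (a1 F • a2 - a2 F • a1) - (2 * s) • (b1 F • b2 - b2 F • b1)

theorem contDiff_θ2 (s : ℝ) : ContDiff ℝ 1 (θ2 s) := by
  have k3 : ContDiff ℝ 1 (fun F : E => a1 F • a2 - a2 F • a1) :=
    (a1.contDiff.smul contDiff_const).sub (a2.contDiff.smul contDiff_const)
  have k4 : ContDiff ℝ 1 (fun F : E => b1 F • b2 - b2 F • b1) :=
    (b1.contDiff.smul contDiff_const).sub (b2.contDiff.smul contDiff_const)
  exact (k3.const_smul _).sub (k4.const_smul _)

theorem dform_θ2 (s : ℝ) (F G H : E) :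
    fderiv ℝ (θ2 s) F G H = -(2 * s) * (a1 G * a2 H - a2 G * a1 H)
      - 2 * s * (b1 G * b2 H - b2 G * b1 H) := by
  refine dform_of_poly (contDiff_θ2 s) F G H (θ2 s F H) _ 0 0 fun t => ?_
  simp only [θ2, map_add, map_smul, smul_eq_mul, _root_.sub_apply, FunLike.coe_smul,
    Pi.smul_apply]
  ring

theorem cert_det (s : ℝ) : HeatCert (W2 s (-s)) (θ2 s) := by
  intro F G₀ G₁ hG
  rw [hess_W2, hess_W2, dform_θ2, dform_θ2]
  have g0 := hG 0
  have g1 := hG 1
  refine le_of_eq ?_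
  simp only [W2, pP, pQ, a1_apply, a2_apply, b1_apply, b2_apply, ← g0, ← g1]
  ring

theorem pP_nonneg (F : E) : 0 ≤ pP F := by unfold pP; positivity
theorem pQ_nonneg (F : E) : 0 ≤ pQ F := by unfold pQ; positivity

theorem cert_W2 {x y : ℝ} (hx : 0 ≤ x) (hy : 0 ≤ y) : HeatCert (W2 x y) (fun _ => 0) := by
  intro F G₀ G₁ _
  rw [hess_W2, hess_W2]
  have h : ∀ G : E, 0 ≤ W2 x y G := fun G =>
    add_nonneg (mul_nonneg hx (pP_nonneg G)) (mul_nonneg hy (pQ_nonneg G))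
  have := h G₀
  have := h G₁
  simp
  linarith

theorem cert_W4' {A C : ℝ} (hA : 0 ≤ A) (hC : 0 ≤ C) : HeatCert (W4 A 0 C) (fun _ => 0) := by
  intro F G₀ G₁ _
  rw [hess_W4, hess_W4]
  have h : ∀ G : E, 0 ≤ 2 * (A * (2 * pP F * pP G + (2 * (a1 F * a1 G + a2 F * a2 G)) ^ 2)
        + 0 * (pP F * pQ G + pP G * pQ F
          + (2 * (a1 F * a1 G + a2 F * a2 G)) * (2 * (b1 F * b1 G + b2 F * b2 G)))
        + C * (2 * pQ F * pQ G + (2 * (b1 F * b1 G + b2 F * b2 G)) ^ 2)) := by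
    intro G
    have h1 := pP_nonneg F
    have h2 := pP_nonneg G
    have h3 := pQ_nonneg F
    have h4 := pQ_nonneg G
    rw [zero_mul, add_zero]
    positivity
  have h0 := h G₀
  have h1 := h G₁
  simp only [fderiv_fun_const, Pi.zero_apply, _root_.zero_apply, sub_zero, add_zero]
  linarith

theorem QCtrig_det (s : ℝ) : QCtrig (W2 s (-s)) :=
  QCtrig_of_cert (contDiff_W2 _ _) (contDiff_θ2 s) (cert_det s)

theorem QCtrig_W2 {x y : ℝ} (hx : 0 ≤ x) (hy : 0 ≤ y) : QCtrig (W2 x y) :=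
  QCtrig_of_cert (contDiff_W2 _ _) contDiff_const (cert_W2 hx hy)

theorem continuous_W2 (x y : ℝ) : Continuous (W2 x y) := (contDiff_W2 x y).continuous
theorem continuous_W4 (A B C : ℝ) : Continuous (W4 A B C) := (contDiff_W4 A B C).continuous

/-- the square of the determinant -/
theorem QCtrig_det_sq : QCtrig (fun F => (W2 1 (-1) F) ^ 2) := by
  intro ι _ F₀ k c d
  set Φ : V → E := fun x => F₀ + Fam k (grk k c) (grk k d) 1 x with hΦ
  have hF : Continuous Φ := continuous_const.add (continuous_Fam k (grk k c) (grk k d) 1)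
  have h1 := QCtrig_det 1 ι F₀ k c d
  have h2 := QCtrig_det (-1) ι F₀ k c d
  have e : ∀ F : E, W2 (-1) (- -1) F = -W2 1 (-1) F := by
    intro F
    unfold W2
    ring
  simp only [e] at h2
  rw [integral_neg] at h2
  have h3 : ∫ x in Icc (0 : V) 1, W2 1 (-1) (Φ x) = W2 1 (-1) F₀ := le_antisymm (by linarith) h1
  have hc : Continuous (fun x => W2 1 (-1) (Φ x)) := (continuous_W2 _ _).comp hF
  have h4 : ∫ x in Icc (0 : V) 1, (2 * W2 1 (-1) F₀ * W2 1 (-1) (Φ x) - W2 1 (-1) F₀ ^ 2)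
      ≤ ∫ x in Icc (0 : V) 1, (W2 1 (-1) (Φ x)) ^ 2 := by
    refine integral_mono ?_ ?_ fun x => ?_
    · exact ((continuous_const.mul hc).sub continuous_const).integrableOn_Icc
    · exact (hc.pow 2).integrableOn_Icc
    · simp only
      nlinarith [sq_nonneg (W2 1 (-1) (Φ x) - W2 1 (-1) F₀)]
  rw [integral_sub, integral_const_mul, h3] at h4
  · simp only [integral_const, Measure.real, Measure.restrict_apply_univ, volume_cube, smul_eq_mul,
      one_mul] at h4
    linarith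
  · exact (continuous_const.mul hc).integrableOn_Icc
  · exact continuous_const.integrableOn_Icc

/-- the squared norm -/
noncomputable def nsq (F : Matrix (Fin 2) (Fin 2) ℝ) : ℝ := ∑ i, ∑ j, F i j ^ 2

/-- isotropic polynomials of degree at most four -/
noncomputable def Iso (c : Fin 6 → ℝ) (F : Matrix (Fin 2) (Fin 2) ℝ) : ℝ :=
  c 0 + c 1 * nsq F + c 2 * F.det + c 3 * nsq F ^ 2 + c 4 * (nsq F * F.det) + c 5 * F.det ^ 2

theorem nsq_eq (F : E) : nsq (F : Matrix (Fin 2) (Fin 2) ℝ) = 2 * pP F + 2 * pQ F := by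
  simp only [nsq, Fin.sum_univ_two, pP, pQ, a1_apply, a2_apply, b1_apply, b2_apply]
  ring

theorem det_eq (F : E) : Matrix.det (F : Matrix (Fin 2) (Fin 2) ℝ) = pP F - pQ F := by
  rw [Matrix.det_fin_two]
  simp only [pP, pQ, a1_apply, a2_apply, b1_apply, b2_apply]
  ring

theorem QCtrig_Iso (c : Fin 6 → ℝ) (h1 : 0 ≤ c 1) (hA : 0 ≤ 8 * c 3 + 2 * c 4)
    (hC : 0 ≤ 8 * c 3 - 2 * c 4)
    (hB : 0 < 8 * c 3 - 2 * c 5 → 0 < 8 * c 3 + 2 * c 4 ∧ 0 < 8 * c 3 - 2 * c 4 ∧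
      (8 * c 3 - 2 * c 5) * ((8 * c 3 + 2 * c 4) + (8 * c 3 - 2 * c 4))
        ≤ 3 * ((8 * c 3 + 2 * c 4) * (8 * c 3 - 2 * c 4))) :
    QCtrig (fun F : E => Iso c F) := by
  have hlow : QCtrig (fun F : E => (c 0 + W2 (2 * c 1) (2 * c 1) F) + W2 (c 2) (-(c 2)) F) :=
    ((QCtrig_const (c 0)).add (QCtrig_W2 (by linarith) (by linarith)) continuous_const
      (continuous_W2 _ _)).add (QCtrig_det (c 2)) (continuous_const.add (continuous_W2 _ _))
      (continuous_W2 _ _)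
  have hlowc : Continuous (fun F : E => (c 0 + W2 (2 * c 1) (2 * c 1) F) + W2 (c 2) (-(c 2)) F) :=
    (continuous_const.add (continuous_W2 _ _)).add (continuous_W2 _ _)
  by_cases hB0 : 0 < 8 * c 3 - 2 * c 5
  · obtain ⟨hA1, hC1, h3⟩ := hB hB0
    have e1 : (4 * c 3 + 2 * c 4 + c 5) + (8 * c 3 - 2 * c 5) / 2 = 8 * c 3 + 2 * c 4 := by ring
    have e2 : (4 * c 3 - 2 * c 4 + c 5) + (8 * c 3 - 2 * c 5) / 2 = 8 * c 3 - 2 * c 4 := by ring
    have hq := QCtrig_of_cert (contDiff_W4 (4 * c 3 + 2 * c 4 + c 5) (8 * c 3 - 2 * c 5)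
      (4 * c 3 - 2 * c 4 + c 5)) (contDiff_θ4 _ _ _)
      (cert_W4 (by rw [e1]; exact hA1) (by rw [e2]; exact hC1) hB0.le (by rw [e1, e2]; exact h3))
    have := hlow.add hq hlowc (continuous_W4 _ _ _)
    convert this using 2 with F
    rw [Iso, nsq_eq, det_eq, W2, W2, W4]
    ring
  · have hq : QCtrig (fun F : E => W4 (8 * c 3 + 2 * c 4) 0 (8 * c 3 - 2 * c 4) F
        + (-(8 * c 3 - 2 * c 5) / 2) * (W2 1 (-1) F) ^ 2) :=
      (QCtrig_of_cert (contDiff_W4 _ _ _) contDiff_const (cert_W4' hA hC)).add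
        (QCtrig_det_sq.const_mul (by push Not at hB0; linarith)) (continuous_W4 _ _ _)
        (continuous_const.mul ((continuous_W2 _ _).pow 2))
    have := hlow.add hq hlowc ((continuous_W4 _ _ _).add
      (continuous_const.mul ((continuous_W2 _ _).pow 2)))
    convert this using 2 with F
    rw [Iso, nsq_eq, det_eq, W2, W2, W2, W4]
    ring

/-! ### Rank-one convexity -/

open Pool.Agent.Helper188.Morrey

theorem roc_mid {W : Matrix (Fin 2) (Fin 2) ℝ → ℝ} (hW : RankOneConvex W)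
    (F H : Matrix (Fin 2) (Fin 2) ℝ) (hd : H.det = 0) : 2 * W F ≤ W (F + H) + W (F - H) := by
  have h := hW.seg (F - H) ((2:ℝ) • H) (by rw [det_smul, hd, mul_zero])
    (t := 1 / 2) (by norm_num) (by norm_num)
  have e1 : F - H + (1 / 2 : ℝ) • ((2:ℝ) • H) = F := by
    rw [smul_smul]; norm_num
  have e2 : F - H + (2:ℝ) • H = F + H := by
    rw [two_smul]; abel
  rw [e1, e2] at h
  linarith

theorem nonneg_of_sq {Q R : ℝ} (h : ∀ t : ℝ, 0 ≤ t ^ 2 * Q + R) : 0 ≤ Q := by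
  by_contra hQ
  push Not at hQ
  have hR : 0 ≤ R := by simpa using h 0
  have h1 := h (Real.sqrt ((R + 1) / (-Q)))
  rw [Real.sq_sqrt (div_nonneg (by linarith) (by linarith))] at h1
  have e : (R + 1) / (-Q) * Q = -(R + 1) := by
    have : Q ≠ 0 := hQ.ne
    field_simp
  rw [e] at h1
  linarith

theorem nonneg_of_small {P Q : ℝ} (h : ∀ t : ℝ, 0 ≤ t ^ 2 * P + t ^ 4 * Q) : 0 ≤ P := by
  have h2 : ∀ t : ℝ, 0 ≤ t ^ 2 * P + Q := by
    intro t
    by_cases ht : t = 0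
    · have : 0 ≤ Q := by
        refine nonneg_of_sq (R := P) fun s => ?_
        by_cases hs : s = 0
        · subst hs
          have key : ∀ n : ℕ, 0 ≤ P + (1 / ((n:ℝ) + 1)) * Q := by
            intro n
            have hn : (0:ℝ) < (n:ℝ) + 1 := by positivity
            have h1 := h (Real.sqrt (1 / ((n:ℝ) + 1)))
            have e2 : Real.sqrt (1 / ((n:ℝ) + 1)) ^ 2 = 1 / ((n:ℝ) + 1) :=
              Real.sq_sqrt (by positivity)
            have e4 : Real.sqrt (1 / ((n:ℝ) + 1)) ^ 4 = (1 / ((n:ℝ) + 1)) ^ 2 := by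
              rw [show (4:ℕ) = 2 * 2 from rfl, pow_mul, e2]
            rw [e2, e4] at h1
            have h3 : 0 ≤ (1 / ((n:ℝ) + 1)) * (P + (1 / ((n:ℝ) + 1)) * Q) := by
              calc (0:ℝ) ≤ _ := h1
                _ = _ := by ring
            exact nonneg_of_mul_nonneg_right h3 (by positivity)
          have hlim : Tendsto (fun n : ℕ => P + (1 / ((n:ℝ) + 1)) * Q) atTop (𝓝 (P + 0 * Q)) :=
            (tendsto_one_div_add_atTop_nhds_zero_nat.mul_const Q).const_add P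
          have := ge_of_tendsto' hlim key
          simpa using this
        · have h1 := h s
          have hs2 : 0 < s ^ 2 := by positivity
          have h3 : 0 ≤ s ^ 2 * (s ^ 2 * Q + P) := by
            calc (0:ℝ) ≤ _ := h1
              _ = _ := by ring
          exact nonneg_of_mul_nonneg_right h3 hs2
      subst ht
      simpa using this
    · have h1 := h (1 / t)
      have e : t ^ 2 * P + Q = t ^ 4 * ((1 / t) ^ 2 * P + (1 / t) ^ 4 * Q) := by
        field_simp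
      rw [e]
      positivity
  exact nonneg_of_sq h2

theorem Iso_conditions (c : Fin 6 → ℝ) (h : RankOneConvex (Iso c)) :
    0 ≤ c 1 ∧ 0 ≤ 8 * c 3 + 2 * c 4 ∧ 0 ≤ 8 * c 3 - 2 * c 4 ∧
    (0 < 8 * c 3 - 2 * c 5 → 0 < 8 * c 3 + 2 * c 4 ∧ 0 < 8 * c 3 - 2 * c 4 ∧
      (8 * c 3 - 2 * c 5) * ((8 * c 3 + 2 * c 4) + (8 * c 3 - 2 * c 4))
        ≤ 3 * ((8 * c 3 + 2 * c 4) * (8 * c 3 - 2 * c 4))) := by
  have k1 : 0 ≤ c 1 := by
    refine nonneg_of_small (Q := c 3) fun t => ?_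
    have := roc_mid h 0 !![t, 0; 0, 0] (by simp)
    simp [Iso, nsq, Fin.sum_univ_two, Matrix.det_fin_two] at this
    nlinarith
  have k2 : 0 ≤ 8 * c 3 + 2 * c 4 := by
    refine nonneg_of_sq (R := 8 * c 3 + 2 * c 1) fun t => ?_
    have := roc_mid h !![t, 0; 0, t] !![0, 0; 2, 0] (by simp)
    simp [Iso, nsq, Fin.sum_univ_two, Matrix.det_fin_two] at this
    nlinarith
  have k3 : 0 ≤ 8 * c 3 - 2 * c 4 := by
    refine nonneg_of_sq (R := 8 * c 3 + 2 * c 1) fun t => ?_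
    have := roc_mid h !![t, 0; 0, -t] !![0, 0; 2, 0] (by simp)
    simp [Iso, nsq, Fin.sum_univ_two, Matrix.det_fin_two] at this
    nlinarith
  refine ⟨k1, k2, k3, fun hB => ?_⟩
  set A := 8 * c 3 + 2 * c 4 with hA
  set C := 8 * c 3 - 2 * c 4 with hC
  set B := 8 * c 3 - 2 * c 5 with hBdef
  have k4 : ∀ x y : ℝ, 0 ≤ (6 * A - 2 * B) * x ^ 2 - 4 * B * x * y + (6 * C - 2 * B) * y ^ 2 := by
    intro x y
    have : 0 ≤ 2 * ((6 * A - 2 * B) * x ^ 2 - 4 * B * x * y + (6 * C - 2 * B) * y ^ 2) := by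
      refine nonneg_of_sq (R := 8 * c 1 + 32 * c 3) fun t => ?_
      have := roc_mid h !![t * (x + y), 0; 0, t * (x - y)] !![0, 0; 0, 2] (by simp)
      simp [Iso, nsq, Fin.sum_univ_two, Matrix.det_fin_two] at this
      rw [hA, hC, hBdef]
      nlinarith
    linarith
  have k5 : 0 < 6 * A - 2 * B := by
    have h1 := k4 1 0
    have h2 : 0 ≤ 6 * A - 2 * B := by linarith
    rcases h2.lt_or_eq with h3 | h3
    · exact h3
    · exfalso
      rw [← h3] at k4
      have h4 := k4 (|6 * C - 2 * B| + 1) B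
      have h5 : 6 * C - 2 * B ≤ |6 * C - 2 * B| := le_abs_self _
      have h6 : 0 ≤ |6 * C - 2 * B| := abs_nonneg _
      have hB2 : 0 < B ^ 2 := by positivity
      nlinarith
  have k6 : 0 < 6 * C - 2 * B := by
    have h1 := k4 0 1
    have h2 : 0 ≤ 6 * C - 2 * B := by linarith
    rcases h2.lt_or_eq with h3 | h3
    · exact h3
    · exfalso
      rw [← h3] at k4
      have h4 := k4 B (|6 * A - 2 * B| + 1)
      have h5 : 6 * A - 2 * B ≤ |6 * A - 2 * B| := le_abs_self _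
      have h6 : 0 ≤ |6 * A - 2 * B| := abs_nonneg _
      have hB2 : 0 < B ^ 2 := by positivity
      nlinarith
  have k7 := k4 (2 * B) (6 * A - 2 * B)
  have k8 : 0 ≤ (6 * A - 2 * B) * (12 * (3 * (A * C) - B * (A + C))) := by
    calc (0:ℝ) ≤ _ := k7
      _ = _ := by ring
  have k9 := nonneg_of_mul_nonneg_right k8 k5
  refine ⟨by linarith, by linarith, by linarith⟩

end Pool.Agent.W779.Morrey
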