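import Pool.Agent.H73.G.R8.W779.Morrey.Trig

set_option autoImplicit false

open MeasureTheory Set Filter Topology

namespace Pool.Agent.W779.Morrey

/-- finite cosine sums -/
def CosSum (f : V → ℝ) : Prop :=
  ∃ (ι : Type) (_ : Fintype ι) (k : ι → Fin 2 → ℤ) (γ : ι → ℝ),
    ∀ x, f x = ∑ i, γ i * Real.cos (ph (k i) x)

theorem ph_add (k l : Fin 2 → ℤ) (x : V) : ph (k + l) x = ph k x + ph l x := by
  simp [ph]; ring

theorem ph_sub (k l : Fin 2 → ℤ) (x : V) : ph (k - l) x = ph k x - ph l x := by
  simp [ph]; ring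

theorem ph_sub' (k : Fin 2 → ℤ) (x y : V) : ph k (x - y) = ph k x - ph k y := by
  simp [ph]; ring

theorem CosSum.mul {f g : V → ℝ} (hf : CosSum f) (hg : CosSum g) :
    CosSum (fun x => f x * g x) := by
  obtain ⟨ι, _, k, γ, h1⟩ := hf
  obtain ⟨κ, _, l, δ, h2⟩ := hg
  refine ⟨(ι × κ) ⊕ (ι × κ), inferInstance,
    Sum.elim (fun p => k p.1 + l p.2) (fun p => k p.1 - l p.2),
    Sum.elim (fun p => γ p.1 * δ p.2 / 2) (fun p => γ p.1 * δ p.2 / 2), fun x => ?_⟩
  rw [Fintype.sum_sum_type]
  simp only [Sum.elim_inl, Sum.elim_inr]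
  rw [h1, h2, Fintype.sum_mul_sum, ← Finset.sum_add_distrib, Fintype.sum_prod_type]
  refine Finset.sum_congr rfl fun i _ => Finset.sum_congr rfl fun j _ => ?_
  rw [ph_add, ph_sub, Real.cos_add, Real.cos_sub]
  ring

theorem CosSum.const (c : ℝ) : CosSum (fun _ => c) :=
  ⟨Unit, inferInstance, fun _ => 0, fun _ => c, fun x => by simp [ph]⟩

theorem CosSum.pow {f : V → ℝ} (hf : CosSum f) (n : ℕ) : CosSum (fun x => f x ^ n) := by
  induction n with
  | zero => simpa using CosSum.const 1
  | succ n ih =>
    have := ih.mul hf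
    simpa [pow_succ] using this

/-- the kernel -/
noncomputable def cc (x : V) : ℝ :=
  ((1 + Real.cos (2 * Real.pi * x 0)) / 2) * ((1 + Real.cos (2 * Real.pi * x 1)) / 2)

theorem cosSum_cc : CosSum cc := by
  have h : ∀ j : Fin 2, CosSum (fun x => (1 + Real.cos (2 * Real.pi * x j)) / 2) := by
    intro j
    refine ⟨Fin 2, inferInstance, ![0, Pi.single j 1], fun _ => 1 / 2, fun x => ?_⟩
    fin_cases j <;> simp [ph, Fin.sum_univ_two] <;> ring
  exact (h 0).mul (h 1)

theorem continuous_cc : Continuous cc := by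
  unfold cc
  fun_prop

theorem cc_nonneg (x : V) : 0 ≤ cc x := by
  unfold cc
  have h0 := Real.neg_one_le_cos (2 * Real.pi * x 0)
  have h1 := Real.neg_one_le_cos (2 * Real.pi * x 1)
  exact mul_nonneg (by linarith) (by linarith)

theorem cc_zero : cc 0 = 1 := by simp [cc]

theorem cos_lt_one' {t : ℝ} (h0 : t ≠ 0) (h1 : |t| < 1) : Real.cos (2 * Real.pi * t) < 1 := by
  have hle := Real.cos_le_one (2 * Real.pi * t)
  refine lt_of_le_of_ne hle fun h => h0 ?_
  have hpi := Real.pi_pos
  rw [abs_lt] at h1
  have := (Real.cos_eq_one_iff_of_lt_of_lt (x := 2 * Real.pi * t) (by nlinarith)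
    (by nlinarith)).1 h
  have h2 : (2 * Real.pi) ≠ 0 := by positivity
  exact (mul_eq_zero.1 this).resolve_left h2

theorem cc_lt {x : V} (h0 : x ≠ 0) (h1 : ∀ j, |x j| < 1) : cc x < 1 := by
  unfold cc
  have a0 := Real.cos_le_one (2 * Real.pi * x 0)
  have a1 := Real.cos_le_one (2 * Real.pi * x 1)
  have b0 := Real.neg_one_le_cos (2 * Real.pi * x 0)
  have b1 := Real.neg_one_le_cos (2 * Real.pi * x 1)
  by_cases hx : x 0 = 0
  · have hx1 : x 1 ≠ 0 := by
      intro h
      apply h0
      ext j; fin_cases j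
      · exact hx
      · exact h
    have := cos_lt_one' hx1 (h1 1)
    nlinarith
  · have := cos_lt_one' hx (h1 0)
    nlinarith

/-- derivative of a function of `y` through the phase -/
theorem hasFDerivAt_cos_ph (k : Fin 2 → ℤ) (x : V) :
    HasFDerivAt (fun y => Real.cos (ph k y))
      (mk' fun j => -(2 * Real.pi * k j) * Real.sin (ph k x)) x := by
  refine (hasFDerivAt_ph k x).cos.congr_fderiv ?_
  ext v
  simp [mk', Fin.sum_univ_two]
  ring

theorem hasFDerivAt_sin_ph (k : Fin 2 → ℤ) (x : V) :
    HasFDerivAt (fun y => Real.sin (ph k y))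
      (mk' fun j => (2 * Real.pi * k j) * Real.cos (ph k x)) x := by
  refine (hasFDerivAt_ph k x).sin.congr_fderiv ?_
  ext v
  simp [mk', Fin.sum_univ_two]
  ring

theorem continuous_ph (k : Fin 2 → ℤ) : Continuous (ph k) := by
  unfold ph
  fun_prop

theorem continuous_mk' {X : Type*} [NormedAddCommGroup X] [NormedSpace ℝ X] (K : Fin 2 → V → X)
    (hK : ∀ j, Continuous (K j)) : Continuous (fun x => mk' fun j => K j x) := by
  unfold mk'
  refine continuous_finsetSum _ fun j _ => ?_
  exact (ContinuousLinearMap.smulRightL ℝ V X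
    (ContinuousLinearMap.proj (R := ℝ) (φ := fun _ : Fin 2 => ℝ) j)).continuous.comp (hK j)

/-- integrals of nonconstant characters vanish -/
theorem integral_cos_sin {k : Fin 2 → ℤ} (hk : k ≠ 0) :
    ∫ y in Icc (0 : V) 1, Real.cos (ph k y) = 0 ∧ ∫ y in Icc (0 : V) 1, Real.sin (ph k y) = 0 := by
  have hn : nk k ≠ 0 := by
    intro h
    obtain ⟨h0, h1⟩ := nk_eq_zero h
    apply hk
    ext j; fin_cases j
    · exact h0
    · exact h1
  have hn' : (nk k : ℝ) ≠ 0 := Nat.cast_ne_zero.2 hn
  have hnk := nk_cast k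
  have hpi := Real.pi_pos
  constructor
  · have h := integral_div_periodic (fun i y => (k i / (2 * Real.pi * nk k) : ℝ) * Real.sin (ph k y))
      (fun i y => (k i / (2 * Real.pi * nk k) : ℝ) •
        (mk' fun j => (2 * Real.pi * k j) * Real.cos (ph k y)))
      (fun i y => (hasFDerivAt_sin_ph k y).const_mul _)
      (fun i => by
        refine Continuous.smul (f := fun _ : V => (k i / (2 * Real.pi * nk k) : ℝ))
          continuous_const
          (continuous_mk' (fun j y => (2 * Real.pi * k j) * Real.cos (ph k y)) fun j => ?_)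
        exact continuous_const.mul (Real.continuous_cos.comp (continuous_ph k)))
      (fun i y _ => by rw [ph_add_single, Real.sin_add_int_mul_two_pi])
    rw [← h]
    refine integral_congr_ae (Eventually.of_forall fun y => ?_)
    simp only [Fin.sum_univ_two, FunLike.coe_smul, Pi.smul_apply, mk'_single, smul_eq_mul]
    field_simp
    rw [hnk]
  · have h := integral_div_periodic (fun i y => (k i / (2 * Real.pi * nk k) : ℝ) * Real.cos (ph k y))
      (fun i y => (k i / (2 * Real.pi * nk k) : ℝ) •
        (mk' fun j => -(2 * Real.pi * k j) * Real.sin (ph k y)))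
      (fun i y => (hasFDerivAt_cos_ph k y).const_mul _)
      (fun i => by
        refine Continuous.smul (f := fun _ : V => (k i / (2 * Real.pi * nk k) : ℝ))
          continuous_const
          (continuous_mk' (fun j y => -(2 * Real.pi * k j) * Real.sin (ph k y)) fun j => ?_)
        exact continuous_const.mul (Real.continuous_sin.comp (continuous_ph k)))
      (fun i y _ => by rw [ph_add_single, Real.cos_add_int_mul_two_pi])
    have h2 : ∫ y in Icc (0 : V) 1, -Real.sin (ph k y) = 0 := by
      rw [← h]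
      refine integral_congr_ae (Eventually.of_forall fun y => ?_)
      simp only [Fin.sum_univ_two, FunLike.coe_smul, Pi.smul_apply, mk'_single, smul_eq_mul]
      field_simp
      rw [hnk]
      ring
    rw [integral_neg] at h2
    linarith

theorem integral_cos_shift (k : Fin 2 → ℤ) (x : V) :
    ∫ y in Icc (0 : V) 1, Real.cos (ph k (x - y)) = ∫ y in Icc (0 : V) 1, Real.cos (ph k (0 - y)) := by
  by_cases hk : k = 0
  · simp [hk, ph]
  · obtain ⟨h1, h2⟩ := integral_cos_sin hk
    have h3 : ∀ z : V, ∫ y in Icc (0 : V) 1, Real.cos (ph k (z - y)) = 0 := by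
      intro z
      simp only [ph_sub', Real.cos_sub]
      rw [integral_add, integral_const_mul, integral_const_mul, h1, h2]
      · simp
      · exact (continuous_const.mul (Real.continuous_cos.comp (continuous_ph k))).integrableOn_Icc
      · exact (continuous_const.mul (Real.continuous_sin.comp (continuous_ph k))).integrableOn_Icc
    rw [h3, h3]

theorem integral_cosSum_shift {f : V → ℝ} (hf : CosSum f) (x : V) :
    ∫ y in Icc (0 : V) 1, f (x - y) = ∫ y in Icc (0 : V) 1, f (0 - y) := by
  obtain ⟨ι, _, k, γ, h⟩ := hf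
  simp only [h]
  have h2 : ∀ z : V, ∀ i ∈ (Finset.univ : Finset ι), Integrable
      (fun y => γ i * Real.cos (ph (k i) (z - y))) (volume.restrict (Icc (0:V) 1)) := by
    intro z i _
    refine Continuous.integrableOn_Icc ?_
    have := continuous_ph (k i)
    fun_prop
  rw [integral_finsetSum _ (h2 x), integral_finsetSum _ (h2 0)]
  refine Finset.sum_congr rfl fun i _ => ?_
  rw [integral_const_mul, integral_const_mul, integral_cos_shift]

end Pool.Agent.W779.Morrey
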